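import Mathlib
import Pool.Agent.L7h51.WapFix.Main

/-!
# Nonexpansive fixed points for semigroups with a left invariant mean on `WAP(S)`

Full positive answer to Q1: no separability of the semigroup is needed.

Let `G` be the closure of `{T_s}` in the product space `C ^ C`; it is a compact semigroup of weakly
continuous nonexpansive maps.  By Grothendieck's theorem the functions `t ↦ h (T_t x₀)`, `h`
continuous on `(C, weak)`, are weakly almost periodic, so the mean gives a probability on `C` which
is invariant under `G`; its support `F` satisfies `g F = F` for `g ∈ G`, and lies in a minimal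
closed convex invariant set `K` if `x₀ ∈ K`.  On `F` every `g ∈ G` has an inverse in `G` (an
idempotent of a minimal left ideal).  If the orbit `G x`, `x ∈ F`, were not totally bounded for a
seminorm, then countably many maps would produce a countable semigroup, whose orbit of `x` has
a weak closure which is covered by countably many small weakly closed sets; Baire's theorem and the
inverses give a contradiction.  A barycentre argument of DeMarr in `K` shows that `G x` is a single
point.
-/

set_option autoImplicit false

namespace Pool.Agent.Results.MP_c68506_an.WapFixedPoint

open Pool.Agent.L7h51.WapFix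

/-- If `WAP(S)` has a left invariant mean, then every weakly separately continuous, weakly
quasi-equicontinuous, `Q`-nonexpansive representation of `S` on a nonempty weakly compact convex
subset of a Hausdorff locally convex space `(E, Q)` has a common fixed point. -/
theorem result {𝕂 : Type*} [RCLike 𝕂] {S : Type*} [Semigroup S] [TopologicalSpace S]
    [Semitopological S] (hLIM : ∃ m : WAP 𝕂 S →ₗ[𝕂] 𝕂, IsLIM m)
    {𝕜 E ι : Type*} [RCLike 𝕜] [AddCommGroup E] [Module 𝕜 E] [Module ℝ E] [IsScalarTower ℝ 𝕜 E]
    [TopologicalSpace E] [IsTopologicalAddGroup E] [ContinuousSMul 𝕜 E] [T2Space E]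
    (Q : ι → Seminorm 𝕜 E) (hQ : WithSeminorms Q)
    (C : Set (WeakSpace 𝕜 E)) (hcompact : IsCompact C) (hne : C.Nonempty) (hconvex : Convex ℝ C)
    (T : S → C → C) (hT : IsGoodRep Q C T) :
    ∃ x : C, ∀ s : S, T s x = x := by
  obtain ⟨m, hm⟩ := hLIM
  exact fixed_point m hm Q hQ C hcompact hne hconvex T hT

end Pool.Agent.Results.MP_c68506_an.WapFixedPoint
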